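import Pool.Agent.H94.HYP.DenE

/-!
# HYP, density of smooth polynomials, part F: singular points of large degree, one coset
-/

set_option autoImplicit false
set_option linter.style.haveILetI false
set_option linter.unusedSimpArgs false

namespace Pool.HYP.Den

open Polynomial Pool.HYP

theorem ncard_bU {α ι : Type} (S : Finset ι) (B : ι → Set α) (hB : ∀ x ∈ S, (B x).Finite) :
    (⋃ x ∈ S, B x).ncard ≤ ∑ x ∈ S, (B x).ncard ∧ (⋃ x ∈ S, B x).Finite := by
  classical
  induction S using Finset.induction_on with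
  | empty => simp
  | insert a s ha ih =>
    obtain ⟨h1, h2⟩ := ih fun x hx => hB x (Finset.mem_insert_of_mem hx)
    rw [Finset.set_biUnion_insert, Finset.sum_insert ha]
    exact ⟨(Set.ncard_union_le _ _).trans (Nat.add_le_add_left h1 _),
      (hB a (Finset.mem_insert_self _ _)).union h2⟩

variable {F : Type} [Field F]

open Classical in
/-- monic irreducible divisors of degree `≥ m`. -/
noncomputable def PF (A : F[X]) (m : ℕ) : Finset F[X] :=
  (UniqueFactorizationMonoid.normalizedFactors A).toFinset.filter fun P => m ≤ P.natDegree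

theorem mem_PF {A : F[X]} (hA : A ≠ 0) {m : ℕ} {P : F[X]} :
    P ∈ PF A m ↔ P.Monic ∧ Irreducible P ∧ m ≤ P.natDegree ∧ P ∣ A := by
  classical
  unfold PF
  rw [Finset.mem_filter, Multiset.mem_toFinset,
    UniqueFactorizationMonoid.mem_normalizedFactors_iff' hA]
  constructor
  · rintro ⟨⟨h1, h2, h3⟩, h4⟩
    refine ⟨?_, h1, h4, h3⟩
    rw [← h2]
    exact monic_normalize h1.ne_zero
  · rintro ⟨h1, h2, h3, h4⟩
    exact ⟨⟨h2, h1.normalize_eq_self, h4⟩, h3⟩

theorem PF_card {A : F[X]} (hA : A ≠ 0) (m : ℕ) : (PF A m).card * m ≤ A.natDegree :=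
  primes_le hA m _ fun _ hP => (mem_PF hA).1 hP

/-- the perturbation. -/
noncomputable def wv (p : ℕ) (Q : F[X]) (u v : F[X]) : F[X][X] := C (Q ^ p * (u ^ p + X * v ^ p))

theorem wv_pert {p : ℕ} (hp : 3 ≤ p) {g h ℓ : ℕ} {D : Dat F} {Q : F[X]} (hQ : ∀ P ∈ D.T, P ∣ Q)
    (hℓ : p * (Q.natDegree + ℓ) ≤ (2 * g + 1) * h) {u v : F[X]} (hu : u ∈ PL F ℓ)
    (hv : v ∈ PL F ℓ) : Pert g D h (wv p Q u v) := by
  have hmem : Q ^ p * (u ^ p + X * v ^ p) ∈ PL F ((2 * g + 1) * h) := by
    by_cases h0 : ℓ = 0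
    · subst h0
      have hu0 : u = 0 := by
        ext j; rw [coeff_zero]; exact (degree_lt_iff_coeff_zero _ _).1 hu j (Nat.zero_le _)
      have hv0 : v = 0 := by
        ext j; rw [coeff_zero]; exact (degree_lt_iff_coeff_zero _ _).1 hv j (Nat.zero_le _)
      have hp0 : p ≠ 0 := by omega
      rw [hu0, hv0, zero_pow hp0, mul_zero, add_zero, mul_zero]
      exact PL_zero_mem _
    · have hu1 := natDegree_lt_of_mem hu (by omega)
      have hv1 := natDegree_lt_of_mem hv (by omega)
      apply mem_PL_of_natDegree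
      have h1 : (u ^ p).natDegree ≤ p * (ℓ - 1) :=
        (natDegree_pow_le).trans (Nat.mul_le_mul_left _ (by omega))
      have h2 : (X * v ^ p).natDegree ≤ 1 + p * (ℓ - 1) := by
        refine natDegree_mul_le.trans ?_
        have h3 : (v ^ p).natDegree ≤ p * (ℓ - 1) :=
          (natDegree_pow_le).trans (Nat.mul_le_mul_left _ (by omega))
        have h4 : (X : F[X]).natDegree ≤ 1 := natDegree_X_le
        omega
      have h3 : (u ^ p + X * v ^ p).natDegree ≤ 1 + p * (ℓ - 1) :=
        (natDegree_add_le _ _).trans (max_le (by omega) h2)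
      have h4 : (Q ^ p).natDegree ≤ p * Q.natDegree := natDegree_pow_le
      have h5 : (Q ^ p * (u ^ p + X * v ^ p)).natDegree ≤ p * Q.natDegree + (1 + p * (ℓ - 1)) :=
        natDegree_mul_le.trans (by omega)
      have h6 : p * (Q.natDegree + ℓ) = p * Q.natDegree + p * (ℓ - 1) + p := by
        obtain ⟨k, rfl⟩ : ∃ k, ℓ = k + 1 := ⟨ℓ - 1, by omega⟩
        rw [Nat.add_sub_cancel]
        ring
      omega
  refine ⟨?_, ?_, ?_⟩
  · intro i hi hi2
    unfold wv
    rw [coeff_C]
    split_ifs with h0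
    · have : i = 2 * g + 1 := by omega
      rw [this]
      exact hmem
    · exact PL_zero_mem _
  · intro j hj
    unfold wv
    rw [coeff_C, if_neg (by omega)]
  · intro P hP
    obtain ⟨e, he⟩ := hQ P hP
    obtain ⟨k, rfl⟩ : ∃ k, p = k + 1 := ⟨p - 1, by omega⟩
    refine ⟨C (e * Q ^ k * (u ^ (k + 1) + X * v ^ (k + 1))), ?_⟩
    unfold wv
    rw [← C_mul]
    congr 1
    rw [pow_succ Q]
    nth_rewrite 2 [he]
    ring

theorem wv_derivative (p : ℕ) (Q u v : F[X]) (f : F[X][X]) :
    derivative (f + wv p Q u v) = derivative f := by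
  unfold wv
  rw [derivative_add, derivative_C, add_zero]

theorem wv_dt (p : ℕ) [CharP F p] (Q u v : F[X]) (f : F[X][X]) :
    dt (f + wv p Q u v) = dt f + C (Q ^ p * v ^ p) := by
  unfold wv
  rw [dt_add, dt_C]
  congr 2
  have hp : (p : F[X]) = 0 := by
    rw [← C_eq_natCast, CharP.cast_eq_zero, C_0]
  rw [derivative_mul, derivative_add, derivative_mul, derivative_pow, derivative_pow,
    derivative_pow, derivative_X, C_eq_natCast, hp]
  ring

/-- the polynomials of the family with a singular point over a large prime. -/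
def LargeS (g : ℕ) (D : Dat F) (h : ℕ) : Set F[X][X] :=
  {f ∈ Fam g D h | ∃ P : F[X], P.Monic ∧ Irreducible P ∧ h < 2 * P.natDegree + D.deg ∧ Sing P f}

/-- the nonzero coefficient of the derivative. -/
theorem exists_coef [Finite F] {g h : ℕ} {D : Dat F} (hD : D.Ok g) {f : F[X][X]}
    (hf : f ∈ Fam g D h) :
    ∃ j : ℕ, (derivative f).coeff j ≠ 0 ∧ ((derivative f).coeff j).natDegree ≤ 2 * g * h := by
  obtain ⟨_, htm, htd, hti⟩ := hD
  obtain ⟨hm, hn, hc, _⟩ := hf
  have hsep : D.top.Separable := PerfectField.separable_of_irreducible hti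
  have hder : derivative D.top ≠ 0 := by
    intro h0
    rw [separable_def, h0, isCoprime_zero_right] at hsep
    exact hti.not_isUnit hsep
  obtain ⟨j, hj⟩ : ∃ j, (derivative D.top).coeff j ≠ 0 := by
    by_contra hh
    push Not at hh
    exact hder (by ext j; rw [hh, coeff_zero])
  rw [coeff_derivative] at hj
  have hj1 : D.top.coeff (j + 1) ≠ 0 := left_ne_zero_of_mul hj
  have hj2 : ((j : F) + 1) ≠ 0 := right_ne_zero_of_mul hj
  have hj3 : j + 1 ≤ 2 * g + 1 := by
    by_contra h0
    exact hj1 (coeff_eq_zero_of_natDegree_lt (by omega))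
  obtain ⟨h1, h2⟩ := hc (2 * g + 1 - (j + 1)) (by omega)
  have e : 2 * g + 1 - (2 * g + 1 - (j + 1)) = j + 1 := by omega
  rw [e] at h1 h2
  refine ⟨j, ?_, ?_⟩
  · rw [coeff_derivative]
    apply mul_ne_zero
    · intro h0
      rw [h0, coeff_zero] at h2
      exact hj1 h2.symm
    · have : ((j : F[X]) + 1) = C ((j : F) + 1) := by
        rw [C_add, C_1, C_eq_natCast]
      rw [this]
      exact C_ne_zero.2 hj2
  · rw [coeff_derivative]
    have : ((j : F[X]) + 1) = C ((j : F) + 1) := by
      rw [C_add, C_1, C_eq_natCast]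
    rw [this]
    refine (natDegree_mul_C_le _ _).trans (h1.trans ?_)
    exact Nat.mul_le_mul_right _ (by omega)

/-- degrees of the two derivatives. -/
theorem fam_der_deg {g h : ℕ} {D : Dat F} {f : F[X][X]} (hf : f ∈ Fam g D h) :
    (derivative f).natDegree ≤ 2 * g ∧ (dt f).natDegree ≤ 2 * g ∧
    (∀ j, ((derivative f).coeff j).natDegree ≤ (2 * g + 1) * h) ∧
    (∀ j, ((dt f).coeff j).natDegree ≤ (2 * g + 1) * h) := by
  obtain ⟨hm, hn, hc, _⟩ := hf
  have hcj : ∀ j, (f.coeff j).natDegree ≤ (2 * g + 1) * h := by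
    intro j
    by_cases hj : j ≤ 2 * g + 1
    · have h1 := (hc (2 * g + 1 - j) (by omega)).1
      have e : 2 * g + 1 - (2 * g + 1 - j) = j := by omega
      rw [e] at h1
      exact h1.trans (Nat.mul_le_mul_right _ (by omega))
    · rw [coeff_eq_zero_of_natDegree_lt (by omega), natDegree_zero]
      exact Nat.zero_le _
  refine ⟨?_, ?_, ?_, ?_⟩
  · have := natDegree_derivative_le f
    omega
  · rw [natDegree_le_iff_coeff_eq_zero]
    intro j hj
    rw [dt_coeff]
    by_cases hj2 : j = 2 * g + 1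
    · have : f.coeff j = 1 := by rw [hj2, ← hn]; exact hm
      rw [this, derivative_one]
    · rw [coeff_eq_zero_of_natDegree_lt (by omega), derivative_zero]
  · intro j
    rw [coeff_derivative]
    have : ((j : F[X]) + 1) = C ((j : F) + 1) := by
      rw [C_add, C_1, C_eq_natCast]
    rw [this]
    exact (natDegree_mul_C_le _ _).trans (hcj _)
  · intro j
    rw [dt_coeff]
    have h1 := natDegree_derivative_le (f.coeff j)
    have h2 := hcj j
    omega

end Pool.HYP.Den
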