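import Pool.Agent.H41.HYP.Base

/-!
# HYP, GDT: determinants of the Gram matrices `gr 0 n f h`
-/

set_option autoImplicit false

namespace Pool.HYP

open Polynomial Matrix

section GDT

variable {R : Type} [CommRing R]

/-- A matrix with zeros above the antidiagonal and ones on it. -/
theorem det_anti : ∀ (n : ℕ) (M : Matrix (Fin n) (Fin n) R),
    (∀ i j : Fin n, (i : ℕ) + j + 1 < n → M i j = 0) →
    (∀ i j : Fin n, (i : ℕ) + j + 1 = n → M i j = 1) → M.det = (-1) ^ (n * (n - 1) / 2)
  | 0, M, _, _ => by simp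
  | n + 1, M, h0, h1 => by
    rw [Matrix.det_succ_row_zero, Finset.sum_eq_single (Fin.last n)]
    · rw [h1 0 (Fin.last n) (by simp), mul_one, Nat.triangle_succ]
      rw [det_anti n (M.submatrix Fin.succ (Fin.last n).succAbove)]
      · rw [Fin.val_last, ← pow_add]
        congr 1
        omega
      · intro i j hij
        rw [Matrix.submatrix_apply, Fin.succAbove_last]
        apply h0
        simp only [Fin.val_succ, Fin.val_castSucc]
        omega
      · intro i j hij
        rw [Matrix.submatrix_apply, Fin.succAbove_last]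
        apply h1
        simp only [Fin.val_succ, Fin.val_castSucc]
        omega
    · intro j _ hj
      rw [h0 0 j, mul_zero, zero_mul]
      have : (j : ℕ) ≠ n := by
        intro h
        apply hj
        ext
        simpa using h
      have := j.isLt
      simp only [Fin.val_zero]
      omega
    · intro h
      exact absurd (Finset.mem_univ _) h

theorem tau_add (f p q : R[X]) : tau f (p + q) = tau f p + tau f q := by
  unfold tau
  rw [Polynomial.add_modByMonic, coeff_add]

theorem tau_zero (f : R[X]) : tau f (0 : R[X]) = 0 := by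
  unfold tau
  rw [Polynomial.zero_modByMonic, coeff_zero]

theorem tau_C_mul (f : R[X]) (c : R) (p : R[X]) : tau f (C c * p) = c * tau f p := by
  unfold tau
  rw [← smul_eq_C_mul, Polynomial.smul_modByMonic, coeff_smul, smul_eq_mul]

theorem tau_sum (f : R[X]) {ι : Type} (s : Finset ι) (p : ι → R[X]) :
    tau f (∑ i ∈ s, p i) = ∑ i ∈ s, tau f (p i) := by
  classical
  induction s using Finset.induction_on with
  | empty => simp [tau_zero]
  | insert a s ha ih => rw [Finset.sum_insert ha, Finset.sum_insert ha, tau_add, ih]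

theorem tau_congr {f : R[X]} (hf : f.Monic) {p q : R[X]} (h : f ∣ p - q) : tau f p = tau f q := by
  unfold tau
  rw [Polynomial.modByMonic_eq_of_dvd_sub hf h]

theorem tau_of_lt {f : R[X]} (hf : f.Monic) [Nontrivial R] {p : R[X]}
    (hp : p.natDegree < f.natDegree) : tau f p = p.coeff (f.natDegree - 1) := by
  unfold tau
  rw [(Polynomial.modByMonic_eq_self_iff hf).2 (Polynomial.degree_lt_degree hp)]

theorem tau_X_pow {f : R[X]} (hf : f.Monic) [Nontrivial R] {k : ℕ} (hk : k < f.natDegree) :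
    tau f (X ^ k) = if k + 1 = f.natDegree then 1 else 0 := by
  rw [tau_of_lt hf (by simpa using hk), coeff_X_pow]
  by_cases h : k + 1 = f.natDegree
  · rw [if_pos h, if_pos (by omega)]
  · rw [if_neg h, if_neg (by omega)]

theorem gr_one_det {f : R[X]} (hf : f.Monic) [Nontrivial R] :
    (gr 0 f.natDegree f 1).det = (-1) ^ (f.natDegree * (f.natDegree - 1) / 2) := by
  apply det_anti
  · intro i j hij
    simp only [gr, Matrix.of_apply, add_zero, mul_one]
    rw [tau_X_pow hf (by omega), if_neg (by omega)]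
  · intro i j hij
    simp only [gr, Matrix.of_apply, add_zero, mul_one]
    rw [tau_X_pow hf (by omega), if_pos hij]

/-- multiplication by `h` in the basis of powers. -/
noncomputable def mulM (n : ℕ) (f h : R[X]) : Matrix (Fin n) (Fin n) R :=
  Matrix.of fun k j => ((h * X ^ (j : ℕ)) %ₘ f).coeff k

theorem gr_eq_mul {f : R[X]} (hf : f.Monic) [Nontrivial R] (m : ℕ) (h : R[X]) :
    gr m f.natDegree f h = gr m f.natDegree f 1 * mulM f.natDegree f h := by
  ext i j
  rw [Matrix.mul_apply]
  simp only [gr, mulM, Matrix.of_apply, mul_one]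
  have hn : 0 < f.natDegree := i.pos
  have e1 : tau f (X ^ ((i : ℕ) + j + m) * h) =
      tau f (X ^ ((i : ℕ) + m) * ((h * X ^ (j : ℕ)) %ₘ f)) := by
    apply tau_congr hf
    have h1 : X ^ ((i : ℕ) + j + m) * h - X ^ ((i : ℕ) + m) * ((h * X ^ (j : ℕ)) %ₘ f) =
        X ^ ((i : ℕ) + m) * (h * X ^ (j : ℕ) - (h * X ^ (j : ℕ)) %ₘ f) := by ring
    rw [h1]
    apply Dvd.dvd.mul_left
    have h2 := Polynomial.modByMonic_add_div (h * X ^ (j : ℕ)) f
    refine ⟨(h * X ^ (j : ℕ)) /ₘ f, ?_⟩
    linear_combination -h2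
  have h3 : ((h * X ^ (j : ℕ)) %ₘ f).natDegree < f.natDegree :=
    Polynomial.natDegree_modByMonic_lt _ hf (by rintro rfl; simp at hn)
  rw [e1]
  conv_lhs => rw [Polynomial.as_sum_range' _ _ h3]
  rw [Finset.mul_sum, tau_sum, ← Fin.sum_univ_eq_sum_range
    (fun k => tau f (X ^ ((i : ℕ) + m) * monomial k (((h * X ^ (j : ℕ)) %ₘ f).coeff k)))]
  refine Finset.sum_congr rfl fun k _ => ?_
  rw [← C_mul_X_pow_eq_monomial]
  have h4 : X ^ ((i : ℕ) + m) * (C (((h * X ^ (j : ℕ)) %ₘ f).coeff k) * X ^ (k : ℕ)) =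
      C (((h * X ^ (j : ℕ)) %ₘ f).coeff k) * X ^ ((i : ℕ) + k + m) := by ring
  rw [h4, tau_C_mul, mul_comm]

theorem mulM_det {f : R[X]} (hf : f.Monic) (h : R[X]) :
    (mulM f.natDegree f h).det = Algebra.norm R (AdjoinRoot.mk f h) := by
  rw [Algebra.norm_eq_matrix_det (AdjoinRoot.powerBasis' hf).basis]
  congr 1
  ext i j
  rw [Algebra.leftMulMatrix_eq_repr_mul, PowerBasis.coe_basis]
  simp only [AdjoinRoot.powerBasis'_gen, mulM, Matrix.of_apply]
  rw [← AdjoinRoot.mk_X, ← map_pow, ← map_mul]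
  exact (AdjoinRoot.powerBasisAux'_repr_apply_to_fun hf _ i).symm ▸ rfl

end GDT

/-- GDT. -/
theorem gdt : ∀ (K : Type) [Field K] (n : ℕ) (f : K[X]), f.Monic → f.natDegree = n →
    (gr 0 n f 1).det = (-1) ^ (n * (n - 1) / 2) ∧
    ∀ h : K[X], (gr 0 n f h).det =
      (-1) ^ (n * (n - 1) / 2) * Algebra.norm K (AdjoinRoot.mk f h) := by
  intro K _ n f hf hn
  subst hn
  refine ⟨gr_one_det hf, fun h => ?_⟩
  rw [gr_eq_mul hf, Matrix.det_mul, gr_one_det hf, mulM_det hf]

end Pool.HYP
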