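import Pool.Agent.H94.HYP.DenD

/-!
# HYP, density of smooth polynomials, part E: tools for the large primes
-/

set_option autoImplicit false
set_option linter.style.haveILetI false
set_option linter.unusedSimpArgs false

namespace Pool.HYP.Den

open Polynomial Pool.HYP

section General

variable {K : Type} [Field K]

/-- number of primes of degree `≥ m` dividing `A ≠ 0`. -/
theorem primes_le {A : K[X]} (hA : A ≠ 0) (m : ℕ) (S : Finset K[X])
    (hS : ∀ P ∈ S, P.Monic ∧ Irreducible P ∧ m ≤ P.natDegree ∧ P ∣ A) :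
    S.card * m ≤ A.natDegree := by
  classical
  have h1 : (∏ P ∈ S, P) ∣ A := by
    apply Finset.prod_dvd_of_coprime
    · intro P hP P' hP' hne
      obtain ⟨a1, a2, _, _⟩ := hS P hP
      obtain ⟨b1, b2, _, _⟩ := hS P' hP'
      change IsCoprime P P'
      rw [Irreducible.coprime_iff_not_dvd a2]
      intro hd
      exact hne (eq_of_monic_of_associated a1 b1 (a2.associated_of_dvd b2 hd))
    · intro P hP
      exact (hS P hP).2.2.2
  have h2 := natDegree_le_of_dvd h1 hA
  rw [natDegree_prod_of_monic _ _ fun P hP => (hS P hP).1] at h2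
  refine le_trans ?_ h2
  have h3 := Finset.card_nsmul_le_sum S (fun P => P.natDegree) m fun P hP => (hS P hP).2.2.1
  simpa using h3

theorem exists_monic_irred_common {A B : K[X]} (hA : A ≠ 0) (h : ¬ IsCoprime A B) :
    ∃ π : K[X], π.Monic ∧ Irreducible π ∧ π ∣ A ∧ π ∣ B := by
  classical
  have h1 : ¬ IsUnit (EuclideanDomain.gcd A B) := by
    intro hu
    exact h (EuclideanDomain.gcd_isUnit_iff.1 hu)
  have h0 : EuclideanDomain.gcd A B ≠ 0 := by
    intro h0
    exact hA (EuclideanDomain.gcd_eq_zero_iff.1 h0).1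
  obtain ⟨π, hπ, hd⟩ := WfDvdMonoid.exists_irreducible_factor h1 h0
  refine ⟨normalize π, monic_normalize hπ.ne_zero, (normalize_associated π).symm.irreducible hπ,
    ?_, ?_⟩
  · exact (normalize_associated π).dvd.trans (hd.trans (EuclideanDomain.gcd_dvd_left A B))
  · exact (normalize_associated π).dvd.trans (hd.trans (EuclideanDomain.gcd_dvd_right A B))

end General

section Det

variable {F : Type} [Field F]

theorem natDegree_det_le {ι : Type} [Fintype ι] [DecidableEq ι] (M : Matrix ι ι F[X]) (N : ℕ)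
    (hM : ∀ i j, (M i j).natDegree ≤ N) : M.det.natDegree ≤ Fintype.card ι * N := by
  rw [Matrix.det_apply]
  apply natDegree_sum_le_of_forall_le
  intro σ _
  have h1 : (∏ i, M (σ i) i).natDegree ≤ Fintype.card ι * N := by
    refine (natDegree_prod_le _ _).trans ?_
    refine (Finset.sum_le_sum fun i _ => hM (σ i) i).trans ?_
    rw [Finset.sum_const, smul_eq_mul, Finset.card_univ]
  rcases Int.units_eq_one_or (Equiv.Perm.sign σ) with h | h
  · rw [h, one_smul]; exact h1
  · rw [h, Units.neg_smul, one_smul, natDegree_neg]; exact h1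

/-- a nonzero polynomial in the ideal of two polynomials without common factor. -/
theorem exists_res {G H : F[X][X]} (hG0 : G ≠ 0) {k N : ℕ} (hG : G.natDegree ≤ k)
    (hH : H.natDegree ≤ k) (hGN : ∀ j, (G.coeff j).natDegree ≤ N)
    (hHN : ∀ j, (H.coeff j).natDegree ≤ N)
    (hc : IsCoprime (G.map (algebraMap F[X] (RatFunc F))) (H.map (algebraMap F[X] (RatFunc F)))) :
    ∃ (R : F[X]) (a b : F[X][X]), R ≠ 0 ∧ R.natDegree ≤ (2 * k + 1) * N ∧ G * a + H * b = C R := by
  have hinj : Function.Injective (algebraMap F[X] (RatFunc F)) :=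
    IsFractionRing.injective F[X] (RatFunc F)
  by_cases h0 : G.natDegree ≠ 0 ∨ H.natDegree ≠ 0
  · obtain ⟨a, b, _, _, e⟩ := exists_mul_add_mul_eq_C_resultant G H le_rfl le_rfl h0
    refine ⟨resultant G H, a, b, ?_, ?_, e⟩
    · intro hR
      have h1 : resultant (G.map (algebraMap F[X] (RatFunc F)))
          (H.map (algebraMap F[X] (RatFunc F))) G.natDegree H.natDegree = 0 := by
        rw [resultant_map_map, hR, map_zero]
      have hGd : (G.map (algebraMap F[X] (RatFunc F))).natDegree = G.natDegree :=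
        natDegree_map_eq_of_injective hinj _
      have hHd : (H.map (algebraMap F[X] (RatFunc F))).natDegree = H.natDegree :=
        natDegree_map_eq_of_injective hinj _
      rw [← hGd, ← hHd] at h1
      exact (resultant_eq_zero_iff.1 h1).2 hc
    · unfold resultant
      refine (natDegree_det_le _ N ?_).trans ?_
      · intro i j
        induction j using Fin.addCases with
        | left j =>
          simp only [sylvester, Matrix.of_apply, Fin.addCases_left]
          split_ifs
          · exact hHN _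
          · rw [natDegree_zero]; exact Nat.zero_le _
        | right j =>
          simp only [sylvester, Matrix.of_apply, Fin.addCases_right]
          split_ifs
          · exact hGN _
          · rw [natDegree_zero]; exact Nat.zero_le _
      · rw [Fintype.card_fin]
        exact Nat.mul_le_mul_right _ (by omega)
  · push Not at h0
    obtain ⟨h1, _⟩ := h0
    obtain ⟨r, hr⟩ := natDegree_eq_zero.1 h1
    refine ⟨r, 1, 0, ?_, ?_, by rw [← hr]; ring⟩
    · rintro rfl
      rw [C_0] at hr
      exact hG0 hr.symm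
    · have h2 := hGN 0
      rw [← hr, coeff_C_zero] at h2
      refine h2.trans ?_
      calc N = 1 * N := (one_mul N).symm
        _ ≤ (2 * k + 1) * N := Nat.mul_le_mul_right _ (by omega)

/-- polynomials of degree `< ℓ` in a class modulo `P`. -/
theorem class_le [Finite F] {P : F[X]} {m ℓ : ℕ} (hm : m ≤ P.natDegree)
    (hmℓ : m ≤ ℓ) (S : Set F[X]) (hS : ∀ u ∈ S, u ∈ PL F ℓ)
    (hS2 : ∀ u ∈ S, ∀ u' ∈ S, P ∣ u - u') :
    S.ncard * Nat.card F ^ m ≤ Nat.card F ^ ℓ := by
  have hfin : (PL F ℓ).Finite := PL_finite ℓ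
  have h1 : Finite (PL F ℓ) := hfin.to_subtype
  have h2 : Finite (PL F m) := (PL_finite (F := F) m).to_subtype
  have h3 : Finite S := (hfin.subset hS).to_subtype
  let φ : S × PL F m → PL F ℓ := fun x => ⟨x.1.1 + x.2.1, PL_add (hS _ x.1.2) (PL_mono hmℓ x.2.2)⟩
  have hφ : Function.Injective φ := by
    rintro ⟨u, w⟩ ⟨u', w'⟩ h
    have h4 : u.1 + w.1 = u'.1 + w'.1 := congrArg Subtype.val h
    have h5 : w'.1 - w.1 = u.1 - u'.1 := by linear_combination -h4
    have h6 : P ∣ w'.1 - w.1 := by rw [h5]; exact hS2 _ u.2 _ u'.2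
    have h7 : w'.1 - w.1 = 0 := by
      by_contra h8
      have h9 := natDegree_le_of_dvd h6 h8
      have h10 : (w'.1 - w.1) ∈ PL F m := PL_sub w'.2 w.2
      rw [mem_PL, degree_eq_natDegree h8] at h10
      have h11 : (w'.1 - w.1).natDegree < m := by exact_mod_cast h10
      omega
    have h8 : w = w' := Subtype.ext (sub_eq_zero.1 h7).symm
    have h9 : u = u' := by
      apply Subtype.ext
      rw [h7] at h5
      exact sub_eq_zero.1 h5.symm
    rw [h8, h9]
  have h4 := Nat.card_le_card_of_injective φ hφ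
  rw [Nat.card_prod] at h4
  have e1 : Nat.card (PL F m) = Nat.card F ^ m := PL_ncard (F := F) _
  have e2 : Nat.card (PL F ℓ) = Nat.card F ^ ℓ := PL_ncard (F := F) _
  rw [e1, e2] at h4
  exact h4

end Det

section Derivative

variable {F : Type} [Field F]

/-- the derivative with respect to `t`. -/
noncomputable def dt (f : F[X][X]) : F[X][X] :=
  ∑ i ∈ Finset.range (f.natDegree + 1), C (derivative (f.coeff i)) * X ^ i

theorem dt_coeff (f : F[X][X]) (j : ℕ) : (dt f).coeff j = derivative (f.coeff j) := by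
  unfold dt
  rw [finsetSum_coeff]
  simp only [coeff_C_mul_X_pow]
  by_cases h : j < f.natDegree + 1
  · rw [Finset.sum_eq_single j]
    · simp
    · intro b _ hb
      rw [if_neg (Ne.symm hb)]
    · intro hh
      exact absurd (Finset.mem_range.2 h) hh
  · rw [Finset.sum_eq_zero]
    · rw [coeff_eq_zero_of_natDegree_lt (by omega), derivative_zero]
    · intro i hi
      rw [Finset.mem_range] at hi
      rw [if_neg (by omega)]

theorem dt_add (f g : F[X][X]) : dt (f + g) = dt f + dt g := by
  ext1 j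
  rw [coeff_add, dt_coeff, dt_coeff, dt_coeff, coeff_add, derivative_add]

theorem dt_C (c : F[X]) : dt (C c) = C (derivative c) := by
  ext1 j
  rw [dt_coeff, coeff_C, coeff_C]
  split_ifs
  · rfl
  · exact derivative_zero

theorem dt_mul (f g : F[X][X]) : dt (f * g) = dt f * g + f * dt g := by
  ext1 j
  rw [dt_coeff, coeff_add, coeff_mul, coeff_mul, coeff_mul, derivative_sum,
    ← Finset.sum_add_distrib]
  refine Finset.sum_congr rfl fun x _ => ?_
  rw [derivative_mul, dt_coeff, dt_coeff]

/-- evaluation at a point of `Ω²`. -/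
noncomputable def pe {Ω : Type} [Field Ω] [Algebra F Ω] (τ ξ : Ω) : F[X][X] →+* Ω :=
  eval₂RingHom (aeval τ : F[X] →ₐ[F] Ω).toRingHom ξ

theorem pe_C {Ω : Type} [Field Ω] [Algebra F Ω] (τ ξ : Ω) (c : F[X]) :
    pe τ ξ (C c) = aeval τ c := by
  simp [pe]

theorem pe_eq {Ω : Type} [Field Ω] [Algebra F Ω] (τ ξ : Ω) (f : F[X][X]) :
    pe τ ξ f = (f.map (aeval τ : F[X] →ₐ[F] Ω).toRingHom).eval ξ := by
  simp [pe, eval_map]

/-- a singular point gives a point in `Ω²`. -/
theorem sing_point {Ω : Type} [Field Ω] [Algebra F Ω] [IsAlgClosed Ω] {P : F[X]} {τ : Ω}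
    (hτ : aeval τ P = 0) {f : F[X][X]} (hs : Sing P f) :
    ∃ ξ : Ω, pe τ ξ f = 0 ∧ pe τ ξ (derivative f) = 0 ∧ pe τ ξ (dt f) = 0 := by
  obtain ⟨γ, a, b, c, hγm, hγi, e⟩ := hs
  have hd1 : γ.natDegree ≠ 0 := by
    intro h0
    have h1 : γ = 1 := eq_one_of_monic_natDegree_zero hγm h0
    rw [h1, Polynomial.map_one] at hγi
    exact not_irreducible_one hγi
  obtain ⟨ξ, hξ⟩ := IsAlgClosed.exists_root
    (γ.map (aeval τ : F[X] →ₐ[F] Ω).toRingHom) (by
      rw [degree_eq_natDegree (hγm.map _).ne_zero, hγm.natDegree_map]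
      exact_mod_cast hd1)
  have hγ0 : pe τ ξ γ = 0 := by rw [pe_eq]; exact hξ
  have hP0 : pe τ ξ (C P) = 0 := by rw [pe_C, hτ]
  have hP2 : pe τ ξ (C (P ^ 2)) = 0 := by rw [C_pow, map_pow, hP0]; ring
  refine ⟨ξ, ?_, ?_, ?_⟩
  · rw [e]
    simp only [map_add, map_mul, map_pow, hγ0, hP0, hP2]
    ring
  · rw [e]
    simp only [derivative_add, derivative_mul, derivative_pow, derivative_C, map_add, map_mul,
      map_pow, hγ0, hP0, hP2, map_zero]
    ring
  · have h1 : dt (C (P ^ 2)) = dt (C P) * C P + C P * dt (C P) := by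
      rw [pow_two, C_mul, dt_mul]
    rw [e, dt_add, dt_add, dt_mul, pow_two, dt_mul, dt_mul, dt_mul, dt_mul, h1]
    simp only [map_add, map_mul, hγ0, hP0, hP2]
    ring

end Derivative

end Pool.HYP.Den
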