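import Pool.Agent.H41.HYP.Base

/-!
# HYP, density of smooth polynomials, part A: counting polynomials, perturbations in a family
-/

set_option autoImplicit false

namespace Pool.HYP.Den

open Polynomial Pool.HYP

variable {F : Type} [Field F]

/-- polynomials of degree `< m`. -/
def PL (F : Type) [Field F] (m : ℕ) : Set F[X] := {p | p.degree < m}

theorem mem_PL {m : ℕ} {p : F[X]} : p ∈ PL F m ↔ p.degree < m := Iff.rfl

theorem PL_zero_mem (m : ℕ) : (0 : F[X]) ∈ PL F m := by
  rw [mem_PL, degree_zero]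
  exact WithBot.bot_lt_coe m

theorem PL_add {m : ℕ} {p r : F[X]} (hp : p ∈ PL F m) (hr : r ∈ PL F m) : p + r ∈ PL F m :=
  lt_of_le_of_lt (degree_add_le _ _) (max_lt hp hr)

theorem PL_sub {m : ℕ} {p r : F[X]} (hp : p ∈ PL F m) (hr : r ∈ PL F m) : p - r ∈ PL F m :=
  lt_of_le_of_lt (degree_sub_le _ _) (max_lt hp hr)

theorem PL_mono {m k : ℕ} (h : m ≤ k) : PL F m ⊆ PL F k := by
  intro p hp
  have h1 : p.degree < (m : WithBot ℕ) := hp
  have h2 : (m : WithBot ℕ) ≤ (k : WithBot ℕ) := by exact_mod_cast h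
  exact lt_of_lt_of_le h1 h2

theorem PL_eq (m : ℕ) : PL F m = (degreeLT F m : Set F[X]) := by
  ext p
  rw [mem_PL, SetLike.mem_coe, mem_degreeLT]

theorem PL_finite [Finite F] (m : ℕ) : (PL F m).Finite := by
  rw [PL_eq]
  have : Finite (degreeLT F m) := Finite.of_equiv _ (degreeLTEquiv F m).toEquiv.symm
  exact Set.toFinite _

theorem PL_ncard [Finite F] (m : ℕ) : (PL F m).ncard = Nat.card F ^ m := by
  rw [PL_eq]
  have h1 : (degreeLT F m : Set F[X]).ncard = Nat.card (degreeLT F m) := rfl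
  rw [h1, Nat.card_congr (degreeLTEquiv F m).toEquiv, Nat.card_fun, Nat.card_fin]

theorem mem_PL_of_natDegree {m : ℕ} {p : F[X]} (hp : p.natDegree < m) : p ∈ PL F m :=
  lt_of_le_of_lt degree_le_natDegree (by exact_mod_cast hp)

theorem natDegree_lt_of_mem {m : ℕ} {p : F[X]} (hp : p ∈ PL F m) (hm : 0 < m) :
    p.natDegree < m := by
  by_cases h : p = 0
  · rw [h]; simpa using hm
  · exact (natDegree_lt_iff_degree_lt h).2 hp

theorem PL_mul {m k : ℕ} {p r : F[X]} (hp : p ∈ PL F m) (hr : r.natDegree ≤ k) :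
    r * p ∈ PL F (k + m) := by
  by_cases h : p = 0
  · rw [h, mul_zero]; exact PL_zero_mem _
  · have hm : 0 < m := by
      by_contra h0
      have : m = 0 := by omega
      subst this
      apply h
      ext j
      rw [coeff_zero]
      exact (degree_lt_iff_coeff_zero _ _).1 hp j (Nat.zero_le _)
    apply mem_PL_of_natDegree
    have h1 := natDegree_lt_of_mem hp hm
    have h2 : (r * p).natDegree ≤ r.natDegree + p.natDegree := natDegree_mul_le
    omega

/-- A perturbation: `δ` can be added to the members of the family. -/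
structure Pert (g : ℕ) (D : Dat F) (h : ℕ) (δ : F[X][X]) : Prop where
  lo : ∀ i : ℕ, 1 ≤ i → i ≤ 2 * g + 1 → δ.coeff (2 * g + 1 - i) ∈ PL F (i * h)
  hi : ∀ j : ℕ, 2 * g + 1 ≤ j → δ.coeff j = 0
  dv : ∀ P ∈ D.T, C P ∣ δ

theorem Pert.add_mem {g : ℕ} {D : Dat F} {h : ℕ} {δ : F[X][X]} (hδ : Pert g D h δ)
    {f : F[X][X]} (hf : f ∈ Fam g D h) : f + δ ∈ Fam g D h := by
  obtain ⟨hm, hn, hc, hT⟩ := hf
  have hdeg : δ.degree < f.degree := by
    rw [degree_eq_natDegree hm.ne_zero, hn, degree_lt_iff_coeff_zero]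
    exact hδ.hi
  refine ⟨hm.add_of_left hdeg, ?_, ?_, ?_⟩
  · rw [natDegree_add_eq_left_of_degree_lt hdeg, hn]
  · intro i hi
    obtain ⟨h1, h2⟩ := hc i hi
    rw [coeff_add]
    by_cases hi0 : i = 0
    · subst hi0
      have h3 : δ.coeff (2 * g + 1 - 0) = 0 := hδ.hi _ (by omega)
      rw [h3, add_zero]
      exact ⟨h1, h2⟩
    · have h3 := hδ.lo i (by omega) hi
      constructor
      · refine (natDegree_add_le _ _).trans (max_le h1 ?_)
        exact natDegree_le_iff_degree_le.2 (le_of_lt h3)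
      · rw [coeff_add, h2, coeff_eq_zero_of_degree_lt h3, add_zero]
  · intro P hP
    have h1 := hT P hP
    have h2 := hδ.dv P hP
    have : f + δ - (X - C (D.c P)) * D.γ P = (f - (X - C (D.c P)) * D.γ P) + δ := by ring
    rw [this]
    exact dvd_add h1 h2

theorem Pert.neg {g : ℕ} {D : Dat F} {h : ℕ} {δ : F[X][X]} (hδ : Pert g D h δ) :
    Pert g D h (-δ) where
  lo i h1 h2 := by
    rw [coeff_neg, mem_PL, degree_neg]
    exact hδ.lo i h1 h2
  hi j hj := by rw [coeff_neg, hδ.hi j hj, neg_zero]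
  dv P hP := (dvd_neg).2 (hδ.dv P hP)

theorem Pert.add_mem_iff {g : ℕ} {D : Dat F} {h : ℕ} {δ : F[X][X]} (hδ : Pert g D h δ)
    {f : F[X][X]} : f + δ ∈ Fam g D h ↔ f ∈ Fam g D h := by
  constructor
  · intro hf
    have := hδ.neg.add_mem hf
    simpa using this
  · exact hδ.add_mem

/-- The family is finite. -/
theorem fam_finite [Finite F] (g : ℕ) (D : Dat F) (h : ℕ) : (Fam g D h).Finite := by
  classical
  let N := (2 * g + 1) * h + 1
  have : Finite (PL F N) := (PL_finite (F := F) N).to_subtype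
  let φ : Fam g D h → (Fin (2 * g + 2) → PL F N) := fun f i =>
    ⟨f.1.coeff i, by
      obtain ⟨hm, hn, hc, hT⟩ := f.2
      apply mem_PL_of_natDegree
      have hi : (i : ℕ) < 2 * g + 2 := i.isLt
      have := (hc (2 * g + 1 - i) (by omega)).1
      have e : 2 * g + 1 - (2 * g + 1 - (i : ℕ)) = i := by omega
      rw [e] at this
      have h2 : (2 * g + 1 - (i : ℕ)) * h ≤ (2 * g + 1) * h := Nat.mul_le_mul_right _ (by omega)
      omega⟩
  have hφ : Function.Injective φ := by
    intro f f' hff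
    apply Subtype.ext
    ext1 j
    by_cases hj : j < 2 * g + 2
    · have := congrArg Subtype.val (congrFun hff ⟨j, hj⟩)
      exact this
    · obtain ⟨_, hn, _⟩ := f.2
      obtain ⟨_, hn', _⟩ := f'.2
      rw [coeff_eq_zero_of_natDegree_lt (by omega), coeff_eq_zero_of_natDegree_lt (by omega)]
  have : Finite (Fam g D h) := Finite.of_injective φ hφ
  exact Set.toFinite _

end Pool.HYP.Den
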