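import Pool.Agent.H94.HYP.DenA

/-!
# HYP, density of smooth polynomials, part B: singular points of small degree
-/

set_option autoImplicit false

namespace Pool.HYP.Den

open Polynomial Pool.HYP

variable {F : Type} [Field F]

/-- polynomial with given coefficients. -/
noncomputable def mkP {d : ℕ} (v : Fin d → F[X]) : F[X][X] := ∑ i, C (v i) * X ^ (i : ℕ)

theorem mkP_coeff {d : ℕ} (v : Fin d → F[X]) (j : ℕ) :
    (mkP v).coeff j = if h : j < d then v ⟨j, h⟩ else 0 := by
  unfold mkP
  rw [finsetSum_coeff]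
  simp only [coeff_C_mul_X_pow]
  by_cases h : j < d
  · rw [dif_pos h, Finset.sum_eq_single (⟨j, h⟩ : Fin d)]
    · simp
    · intro b _ hb
      rw [if_neg]
      intro hjb
      apply hb
      ext
      exact hjb.symm
    · intro hh
      exact absurd (Finset.mem_univ _) hh
  · rw [dif_neg h]
    apply Finset.sum_eq_zero
    intro i _
    rw [if_neg]
    intro hji
    exact h (hji ▸ i.isLt)

theorem mkP_degree_lt {d : ℕ} (v : Fin d → F[X]) : (mkP v).degree < d := by
  rw [degree_lt_iff_coeff_zero]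
  intro j hj
  rw [mkP_coeff, dif_neg (by omega)]

theorem mkP_inj {d : ℕ} {v w : Fin d → F[X]} (h : mkP v = mkP w) : v = w := by
  funext i
  have := congrArg (fun f => f.coeff (i : ℕ)) h
  simp only [mkP_coeff, i.isLt, dif_pos] at this
  exact this

/-- `f` vanishes to second order at the closed point `(P, γ)`. -/
def InI (P : F[X]) (γ f : F[X][X]) : Prop :=
  ∃ a b c : F[X][X], f = γ ^ 2 * a + C P * (γ * b) + C (P ^ 2) * c

theorem InI.sub {P : F[X]} {γ f f' : F[X][X]} (h : InI P γ f) (h' : InI P γ f') :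
    InI P γ (f - f') := by
  obtain ⟨a, b, c, e⟩ := h
  obtain ⟨a', b', c', e'⟩ := h'
  exact ⟨a - a', b - b', c - c', by rw [e, e']; ring⟩

theorem InI.of_mul {P Q : F[X]} {γ f : F[X][X]} (hPQ : IsCoprime P Q)
    (h : InI P γ (C Q * f)) : InI P γ f := by
  obtain ⟨a, b, c, e⟩ := h
  have h2 : IsCoprime (P ^ 2) Q := hPQ.pow_left
  obtain ⟨A, B, hAB⟩ := h2
  refine ⟨C B * a, C B * b, C A * f + C B * c, ?_⟩
  have h3 : C A * C (P ^ 2) + C B * C Q = (1 : F[X][X]) := by
    rw [← C_mul, ← C_mul, ← C_add, hAB, C_1]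
  linear_combination C B * e - f * h3

/-- reduced representatives are incongruent. -/
theorem InI.eq_zero {P : F[X]} (hP : P.Monic) {γ : F[X][X]} (hγ : γ.Monic) {r s : F[X][X]}
    (hr : r.degree < γ.degree) (hs : s.degree < γ.degree)
    (hrc : ∀ j, r.coeff j ∈ PL F (2 * P.natDegree)) (hsc : ∀ j, s.coeff j ∈ PL F P.natDegree)
    (h : InI P γ (r + γ * s)) : r = 0 ∧ s = 0 := by
  obtain ⟨a, b, c, e⟩ := h
  have key : ∀ (R : F[X]) (m : ℕ), R.Monic → R.natDegree = m → ∀ (u w c : F[X][X]),
      u.degree < γ.degree → (∀ j, u.coeff j ∈ PL F m) → u = γ * w + C R * c → u = 0 := by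
    intro R m hR hRm u w c hu huc huw
    have h1 : u %ₘ γ = u := (modByMonic_eq_self_iff hγ).2 hu
    have h2 : u %ₘ γ = C R * (c %ₘ γ) := by
      rw [huw, add_modByMonic, mul_comm γ w, (modByMonic_eq_zero_iff_dvd hγ).2 (dvd_mul_left γ w),
        zero_add, ← smul_eq_C_mul, smul_modByMonic, smul_eq_C_mul]
    rw [h1] at h2
    ext1 j
    rw [coeff_zero]
    have h3 : u.coeff j = R * (c %ₘ γ).coeff j := by
      conv_lhs => rw [h2]
      rw [coeff_C_mul]
    by_contra h4
    have h5 : (c %ₘ γ).coeff j ≠ 0 := by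
      intro h6
      rw [h6, mul_zero] at h3
      exact h4 h3
    have h6 : m ≤ (u.coeff j).natDegree := by
      rw [h3, hR.natDegree_mul' h5, hRm]
      omega
    have h7 := huc j
    rw [mem_PL, degree_eq_natDegree h4] at h7
    have h8 : (u.coeff j).natDegree < m := by exact_mod_cast h7
    omega
  have h1 : r = γ * (γ * a + C P * b - s) + C (P ^ 2) * c := by linear_combination e
  have hr0 : r = 0 := key (P ^ 2) (2 * P.natDegree) (hP.pow 2) (by rw [hP.natDegree_pow]) r _ c hr
    hrc h1
  refine ⟨hr0, ?_⟩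
  -- γ divides c
  have h2 : γ ∣ c := by
    have h3 : C (P ^ 2) * (c %ₘ γ) = 0 := by
      have h4 : r %ₘ γ = C (P ^ 2) * (c %ₘ γ) := by
        rw [h1, add_modByMonic, mul_comm γ, (modByMonic_eq_zero_iff_dvd hγ).2 (dvd_mul_left γ _),
          zero_add, ← smul_eq_C_mul, smul_modByMonic, smul_eq_C_mul]
      rw [← h4, hr0, zero_modByMonic]
    rcases mul_eq_zero.1 h3 with h5 | h5
    · exact absurd (C_eq_zero.1 h5) (hP.pow 2).ne_zero
    · exact (modByMonic_eq_zero_iff_dvd hγ).1 h5
  obtain ⟨e', he'⟩ := h2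
  have h5 : s = γ * a + C P * (b + C P * e') := by
    have h6 : γ * (γ * a + C P * (b + C P * e') - s) = 0 := by
      have : C (P ^ 2) = (C P) ^ 2 := by rw [C_pow]
      rw [he', hr0, this] at h1
      linear_combination -h1
    rcases mul_eq_zero.1 h6 with h7 | h7
    · exact absurd h7 hγ.ne_zero
    · exact (sub_eq_zero.1 h7).symm
  exact key P P.natDegree hP rfl s a _ hs hsc h5

/-- singular at a fixed closed point. -/
theorem sing_one [Finite F] {g h : ℕ} {D : Dat F} {Q : F[X]} (hQ : ∀ P ∈ D.T, P ∣ Q)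
    {P : F[X]} (hP : P.Monic) (hP1 : 1 ≤ P.natDegree) (hPQ : IsCoprime P Q)
    (hm : 2 * P.natDegree + Q.natDegree ≤ h)
    {γ : F[X][X]} (hγ : γ.Monic) (h2 : 2 * γ.natDegree ≤ 2 * g + 1)
    (hγc : ∀ j, γ.coeff j ∈ PL F P.natDegree) :
    {f ∈ Fam g D h | InI P γ f}.ncard * (Nat.card F) ^ (3 * P.natDegree * γ.natDegree) ≤
      (Fam g D h).ncard := by
  classical
  set m := P.natDegree with hmdef
  set d := γ.natDegree with hddef
  have : Finite (PL F (2 * m)) := (PL_finite (F := F) _).to_subtype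
  have : Finite (PL F m) := (PL_finite (F := F) _).to_subtype
  have hfin : Finite (Fam g D h) := (fam_finite g D h).to_subtype
  let S : Set F[X][X] := {f ∈ Fam g D h | InI P γ f}
  have hSfin : Finite S := ((fam_finite g D h).subset (Set.sep_subset _ _)).to_subtype
  let W := Fin d → (PL F (2 * m)) × (PL F m)
  let rr : W → F[X][X] := fun w => mkP fun i => ((w i).1 : F[X])
  let ss : W → F[X][X] := fun w => mkP fun i => ((w i).2 : F[X])
  have hγdeg : γ.degree = (d : WithBot ℕ) := degree_eq_natDegree hγ.ne_zero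
  have hrr : ∀ w, (rr w).degree < γ.degree := fun w => by rw [hγdeg]; exact mkP_degree_lt _
  have hss : ∀ w, (ss w).degree < γ.degree := fun w => by rw [hγdeg]; exact mkP_degree_lt _
  have hrc : ∀ w j, (rr w).coeff j ∈ PL F (2 * m) := by
    intro w j
    change (mkP _).coeff j ∈ _
    rw [mkP_coeff]
    split_ifs with hj
    · exact (w ⟨j, hj⟩).1.2
    · exact PL_zero_mem _
  have hsc : ∀ w j, (ss w).coeff j ∈ PL F m := by
    intro w j
    change (mkP _).coeff j ∈ _
    rw [mkP_coeff]
    split_ifs with hj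
    · exact (w ⟨j, hj⟩).2.2
    · exact PL_zero_mem _
  have hsum : ∀ (ι : Type) (s : Finset ι) (k : ℕ) (u : ι → F[X]), (∀ i ∈ s, u i ∈ PL F k) →
      ∑ i ∈ s, u i ∈ PL F k := by
    intro ι s k u hu
    induction s using Finset.induction_on with
    | empty => rw [Finset.sum_empty]; exact PL_zero_mem _
    | insert a s ha ih =>
      rw [Finset.sum_insert ha]
      exact PL_add (hu _ (Finset.mem_insert_self _ _))
        (ih fun i hi => hu i (Finset.mem_insert_of_mem hi))
  have hpert : ∀ w, Pert g D h (C Q * (rr w + γ * ss w)) := by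
    intro w
    have hcoef : ∀ j, (rr w + γ * ss w).coeff j ∈ PL F (2 * m) := by
      intro j
      rw [coeff_add]
      apply PL_add (hrc w j)
      rw [coeff_mul]
      apply hsum
      intro x _
      have h3 := PL_mul (hsc w x.2) (r := γ.coeff x.1) (k := m)
        (by
          have := natDegree_lt_of_mem (hγc x.1) hP1
          omega)
      have e : m + m = 2 * m := by ring
      rwa [e] at h3
    refine ⟨?_, ?_, ?_⟩
    · intro i hi _
      rw [coeff_C_mul]
      have h3 := PL_mul (hcoef (2 * g + 1 - i)) (r := Q) (k := Q.natDegree) le_rfl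
      refine PL_mono ?_ h3
      have : 1 * h ≤ i * h := Nat.mul_le_mul_right _ hi
      omega
    · intro j hj
      rw [coeff_C_mul]
      have h3 : (rr w + γ * ss w).degree < ((2 * g + 1 : ℕ) : WithBot ℕ) := by
        refine lt_of_le_of_lt (degree_add_le _ _) (max_lt ?_ ?_)
        · refine lt_of_lt_of_le (hrr w) ?_
          rw [hγdeg]
          exact_mod_cast (by omega : d ≤ 2 * g + 1)
        · by_cases h0 : ss w = 0
          · rw [h0, mul_zero, degree_zero]
            exact WithBot.bot_lt_coe _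
          · rw [degree_mul, degree_eq_natDegree h0, hγdeg]
            have h4 := hss w
            rw [hγdeg, degree_eq_natDegree h0] at h4
            have h5 : (ss w).natDegree < d := by exact_mod_cast h4
            exact_mod_cast (by omega : d + (ss w).natDegree < 2 * g + 1)
      rw [(degree_lt_iff_coeff_zero _ _).1 h3 j hj, mul_zero]
    · intro P' hP'
      obtain ⟨e, he⟩ := hQ P' hP'
      exact ⟨C e * (rr w + γ * ss w), by rw [he, C_mul, mul_assoc]⟩
  let φ : S × W → Fam g D h := fun x => ⟨x.1.1 + C Q * (rr x.2 + γ * ss x.2),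
    (hpert x.2).add_mem x.1.2.1⟩
  have hφ : Function.Injective φ := by
    rintro ⟨f, w⟩ ⟨f', w'⟩ hff
    have h1 : f.1 + C Q * (rr w + γ * ss w) = f'.1 + C Q * (rr w' + γ * ss w') :=
      congrArg Subtype.val hff
    have h3 : InI P γ (C Q * ((rr w - rr w') + γ * (ss w - ss w'))) := by
      have h4 := InI.sub f'.2.2 f.2.2
      have e : f'.1 - f.1 = C Q * ((rr w - rr w') + γ * (ss w - ss w')) := by
        linear_combination -h1
      rwa [e] at h4
    have h5 := InI.eq_zero hP hγ (r := rr w - rr w') (s := ss w - ss w')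
      (lt_of_le_of_lt (degree_sub_le _ _) (max_lt (hrr w) (hrr w')))
      (lt_of_le_of_lt (degree_sub_le _ _) (max_lt (hss w) (hss w')))
      (fun j => by rw [coeff_sub]; exact PL_sub (hrc w j) (hrc w' j))
      (fun j => by rw [coeff_sub]; exact PL_sub (hsc w j) (hsc w' j)) (InI.of_mul hPQ h3)
    have hr : (fun i => ((w i).1 : F[X])) = fun i => ((w' i).1 : F[X]) :=
      mkP_inj (sub_eq_zero.1 h5.1)
    have hs : (fun i => ((w i).2 : F[X])) = fun i => ((w' i).2 : F[X]) :=
      mkP_inj (sub_eq_zero.1 h5.2)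
    have hw : w = w' := by
      funext i
      apply Prod.ext
      · exact Subtype.ext (congrFun hr i)
      · exact Subtype.ext (congrFun hs i)
    subst hw
    have hf : f = f' := Subtype.ext (add_right_cancel h1)
    rw [hf]
  have hcard := Nat.card_le_card_of_injective φ hφ
  rw [Nat.card_prod, Nat.card_fun, Nat.card_fin, Nat.card_prod] at hcard
  have e1 : Nat.card (PL F (2 * m)) = Nat.card F ^ (2 * m) := PL_ncard (F := F) _
  have e2 : Nat.card (PL F m) = Nat.card F ^ m := PL_ncard (F := F) _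
  rw [e1, e2, ← pow_add, ← pow_mul] at hcard
  have e3 : (2 * m + m) * d = 3 * m * d := by ring
  rw [e3] at hcard
  exact hcard

end Pool.HYP.Den
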