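import Pool.Agent.H94.HYP.DenB

/-!
# HYP, density of smooth polynomials, part C: union bound over the small primes
-/

set_option autoImplicit false
set_option linter.style.haveILetI false

namespace Pool.HYP.Den

open Polynomial Pool.HYP

variable {F : Type} [Field F]

/-- no singular point above the primes of `T`. -/
theorem sing_T {g h : ℕ} {D : Dat F} (hD : D.Ok g) {f : F[X][X]} (hf : f ∈ Fam g D h)
    {P : F[X]} (hP : P ∈ D.T) : ¬ Sing P f := by
  rintro ⟨γ, a, b, c, hγm, hγi, e⟩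
  obtain ⟨hPm, hPi, hγPm, hγPd, hγPi⟩ := hD.1 P hP
  haveI : Fact (Irreducible P) := ⟨hPi⟩
  obtain ⟨_, _, _, hT⟩ := hf
  obtain ⟨e1, he1⟩ := hT P hP
  set mk := AdjoinRoot.mk P with hmk
  have hmP : mk P = 0 := AdjoinRoot.mk_self
  have h1 : f.map mk = (X - C (mk (D.c P))) * (D.γ P).map mk := by
    have : f = (X - C (D.c P)) * D.γ P + C P * e1 := by rw [← he1]; ring
    rw [this]
    simp [hmP]
  have h2 : f.map mk = (γ.map mk) ^ 2 * a.map mk := by
    rw [e]
    simp [hmP]
  have h3 : Squarefree ((X - C (mk (D.c P))) * (D.γ P).map mk) := by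
    rw [squarefree_mul_iff]
    refine ⟨?_, (irreducible_X_sub_C _).squarefree, hγPi.squarefree⟩
    apply IsCoprime.isRelPrime
    rw [Irreducible.coprime_iff_not_dvd (irreducible_X_sub_C _)]
    intro h4
    have h5 := (irreducible_X_sub_C (mk (D.c P))).associated_of_dvd hγPi h4
    have h6 := natDegree_eq_of_degree_eq (degree_eq_degree_of_associated h5)
    rw [natDegree_X_sub_C, hγPm.natDegree_map, hγPd] at h6
    omega
  rw [← h1, h2] at h3
  have h4 := h3 (γ.map mk) ⟨a.map mk, by ring⟩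
  exact hγi.not_isUnit h4

/-- reduce the closed point. -/
theorem sing_reduce {g : ℕ} {f : F[X][X]} (hf : f.Monic) (hfd : f.natDegree = 2 * g + 1)
    {P : F[X]} (hP : P.Monic) (hPi : Irreducible P) (hs : Sing P f) :
    ∃ (d : ℕ) (v : Fin d → PL F P.natDegree), 1 ≤ d ∧ d ≤ g ∧
      InI P (X ^ d + mkP fun i => (v i : F[X])) f := by
  obtain ⟨γ, a, b, c, hγm, hγi, e⟩ := hs
  haveI : Fact (Irreducible P) := ⟨hPi⟩
  set mk := AdjoinRoot.mk P with hmk
  have hmP : mk P = 0 := AdjoinRoot.mk_self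
  set d := γ.natDegree with hd
  have hPd : 0 < P.natDegree := hPi.natDegree_pos
  have hd1 : 1 ≤ d := by
    by_contra h0
    have h1 : γ = 1 := eq_one_of_monic_natDegree_zero hγm (by omega)
    rw [h1, Polynomial.map_one] at hγi
    exact not_irreducible_one hγi
  have h2 : f.map mk = (γ.map mk) ^ 2 * a.map mk := by
    rw [e]
    simp [hmP]
  have hd2 : d ≤ g := by
    have h3 : (γ.map mk) ^ 2 ∣ f.map mk := ⟨_, h2⟩
    have h4 := natDegree_le_of_dvd h3 (hf.map mk).ne_zero
    rw [hf.natDegree_map, hfd, natDegree_pow, hγm.natDegree_map] at h4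
    omega
  let v : Fin d → PL F P.natDegree := fun i => ⟨γ.coeff i %ₘ P, by
    rw [mem_PL, ← degree_eq_natDegree hP.ne_zero]
    exact degree_modByMonic_lt _ hP⟩
  refine ⟨d, v, hd1, hd2, ?_⟩
  set γ' : F[X][X] := X ^ d + mkP fun i => (v i : F[X]) with hγ'
  have h5 : γ = γ' + C P * mkP (fun i : Fin d => γ.coeff i /ₘ P) := by
    ext1 j
    rw [hγ', coeff_add, coeff_add, coeff_X_pow, coeff_C_mul, mkP_coeff, mkP_coeff]
    rcases lt_trichotomy j d with hj | hj | hj
    · rw [if_neg (by omega), dif_pos hj, dif_pos hj, zero_add]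
      exact (modByMonic_add_div _ _).symm
    · subst hj
      rw [if_pos rfl, dif_neg (by omega), dif_neg (by omega), mul_zero, add_zero, add_zero]
      exact hγm
    · rw [if_neg (by omega), dif_neg (by omega), dif_neg (by omega), mul_zero, add_zero, add_zero]
      exact coeff_eq_zero_of_natDegree_lt hj
  set E := mkP (fun i : Fin d => γ.coeff i /ₘ P)
  refine ⟨a, 2 * E * a + b, E ^ 2 * a + E * b + c, ?_⟩
  have h6 : C (P ^ 2) = (C P : F[X][X]) ^ 2 := by rw [C_pow]
  rw [e, h5, h6]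
  ring

/-- `X^d + mkP v` -/
theorem mon_props {R : Type} [CommRing R] [Nontrivial R] {d : ℕ} {r : R[X]} (hr : r.degree < d) :
    (X ^ d + r).Monic ∧ (X ^ d + r).natDegree = d := by
  have h1 : r.degree < (X ^ d : R[X]).degree := by rwa [degree_X_pow]
  exact ⟨(monic_X_pow d).add_of_left h1, by
    rw [natDegree_add_eq_left_of_degree_lt h1, natDegree_X_pow]⟩

/-- singular at a point of bidegree `(m, d)`. -/
def AA (g : ℕ) (D : Dat F) (h : ℕ) (Q : F[X]) (m d : ℕ) : Set F[X][X] :=
  {f ∈ Fam g D h | ∃ (p : PL F m) (v : Fin d → PL F m), IsCoprime (X ^ m + (p : F[X])) Q ∧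
    InI (X ^ m + (p : F[X])) (X ^ d + mkP fun i => (v i : F[X])) f}

theorem AA_card [Finite F] {g h : ℕ} {D : Dat F} {Q : F[X]} (hQ : ∀ P ∈ D.T, P ∣ Q) {m d : ℕ}
    (hm1 : 1 ≤ m) (hm : 2 * m + Q.natDegree ≤ h) (hd : d ≤ g) :
    (AA g D h Q m d).ncard * (Nat.card F) ^ (3 * m * d) ≤
      (Nat.card F) ^ (m + m * d) * (Fam g D h).ncard := by
  classical
  have : Finite (PL F m) := (PL_finite (F := F) _).to_subtype
  letI : Fintype (PL F m) := Fintype.ofFinite _
  have hfin := fam_finite (F := F) g D h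
  let I := (PL F m) × (Fin d → PL F m)
  let B : I → Set F[X][X] := fun x => {f ∈ Fam g D h | IsCoprime (X ^ m + (x.1 : F[X])) Q ∧
    InI (X ^ m + (x.1 : F[X])) (X ^ d + mkP fun i => (x.2 i : F[X])) f}
  have hB : ∀ x : I, (B x).ncard * (Nat.card F) ^ (3 * m * d) ≤ (Fam g D h).ncard := by
    intro x
    have hp : (x.1 : F[X]).degree < (m : WithBot ℕ) := x.1.2
    obtain ⟨hPm, hPd⟩ := mon_props hp
    obtain ⟨hγm, hγd⟩ := mon_props (mkP_degree_lt fun i => (x.2 i : F[X]))
    by_cases hc : IsCoprime (X ^ m + (x.1 : F[X])) Q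
    · have h1 := sing_one (g := g) (h := h) hQ hPm (by rw [hPd]; exact hm1) hc
        (by rw [hPd]; exact hm) hγm (by rw [hγd]; omega) (by
          intro j
          rw [hPd, coeff_add, coeff_X_pow, mkP_coeff]
          split_ifs with h1 h2
          · exact absurd h2 (by omega)
          · rw [add_zero]
            apply mem_PL_of_natDegree
            rw [natDegree_one]; omega
          · rw [zero_add]; exact (x.2 _).2
          · rw [add_zero]; exact PL_zero_mem _)
      rw [hPd, hγd] at h1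
      have h2 : B x = {f ∈ Fam g D h | InI (X ^ m + (x.1 : F[X]))
          (X ^ d + mkP fun i => (x.2 i : F[X])) f} := by
        ext f
        simp only [B, Set.mem_ofPred_eq]
        tauto
      rw [h2]
      exact h1
    · have h2 : B x = ∅ := by
        ext f
        simp only [B, Set.mem_ofPred_eq, Set.mem_empty_iff_false, iff_false]
        tauto
      rw [h2, Set.ncard_empty, zero_mul]
      exact Nat.zero_le _
  have hsub : AA g D h Q m d ⊆ ⋃ x : I, B x := by
    rintro f ⟨hf, p, v, h1, h2⟩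
    exact Set.mem_iUnion.2 ⟨(p, v), hf, h1, h2⟩
  have hBfin : ∀ x, (B x).Finite := fun x => hfin.subset (Set.sep_subset _ _)
  have hU : (⋃ x : I, B x).ncard ≤ ∑ x : I, (B x).ncard := by
    have h1 : (⋃ x : I, B x) = ((Finset.univ.biUnion fun x : I => (hBfin x).toFinset : Finset _) :
        Set F[X][X]) := by
      ext f
      simp
    rw [h1, Set.ncard_coe_finset]
    refine (Finset.card_biUnion_le).trans ?_
    refine Finset.sum_le_sum fun x _ => ?_
    rw [Set.ncard_eq_toFinset_card _ (hBfin x)]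
  have hAU : (AA g D h Q m d).ncard ≤ ∑ x : I, (B x).ncard :=
    (Set.ncard_le_ncard hsub (Set.finite_iUnion hBfin)).trans hU
  calc (AA g D h Q m d).ncard * (Nat.card F) ^ (3 * m * d)
      ≤ (∑ x : I, (B x).ncard) * (Nat.card F) ^ (3 * m * d) := Nat.mul_le_mul_right _ hAU
    _ = ∑ x : I, (B x).ncard * (Nat.card F) ^ (3 * m * d) := Finset.sum_mul _ _ _
    _ ≤ ∑ _x : I, (Fam g D h).ncard := Finset.sum_le_sum fun x _ => hB x
    _ = Fintype.card I * (Fam g D h).ncard := by
        rw [Finset.sum_const, smul_eq_mul, Finset.card_univ]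
    _ = (Nat.card F) ^ (m + m * d) * (Fam g D h).ncard := by
        congr 1
        rw [← Nat.card_eq_fintype_card, Nat.card_prod, Nat.card_fun, Nat.card_fin]
        have e1 : Nat.card (PL F m) = Nat.card F ^ m := PL_ncard (F := F) _
        rw [e1, ← pow_mul, ← pow_add]

/-- the polynomials of the family with a singular point over a small prime. -/
def SmallS (g : ℕ) (D : Dat F) (h : ℕ) : Set F[X][X] :=
  {f ∈ Fam g D h | ∃ P : F[X], P.Monic ∧ Irreducible P ∧ 2 * P.natDegree + D.deg ≤ h ∧ Sing P f}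

/-- the product of the primes of `T`. -/
noncomputable def QT (D : Dat F) : F[X] := ∏ P ∈ D.T, P

theorem QT_natDegree {g : ℕ} {D : Dat F} (hD : D.Ok g) : (QT D).natDegree = D.deg := by
  unfold QT Dat.deg
  exact natDegree_prod_of_monic _ _ fun P hP => (hD.1 P hP).1

theorem QT_dvd (D : Dat F) : ∀ P ∈ D.T, P ∣ QT D := fun _ hP => Finset.dvd_prod_of_mem _ hP

theorem QT_coprime {g : ℕ} {D : Dat F} (hD : D.Ok g) {P : F[X]} (hP : P.Monic)
    (hPi : Irreducible P) (hPT : P ∉ D.T) : IsCoprime P (QT D) := by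
  unfold QT
  apply IsCoprime.prod_right
  intro P' hP'
  rw [Irreducible.coprime_iff_not_dvd hPi]
  intro h1
  obtain ⟨h2, h3, _⟩ := hD.1 P' hP'
  have h4 := hPi.associated_of_dvd h3 h1
  have h5 := eq_of_monic_of_associated hP h2 h4
  exact hPT (h5 ▸ hP')

theorem SmallS_subset {g h : ℕ} {D : Dat F} (hD : D.Ok g) :
    SmallS g D h ⊆ ⋃ x ∈ ((Finset.Icc 1 h).filter fun m => 2 * m + D.deg ≤ h) ×ˢ Finset.Icc 1 g,
      AA g D h (QT D) x.1 x.2 := by
  rintro f ⟨hf, P, hPm, hPi, hPd, hs⟩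
  have hPT : P ∉ D.T := fun hPT => sing_T hD hf hPT hs
  obtain ⟨d, v, hd1, hd2, hI⟩ := sing_reduce hf.1 hf.2.1 hPm hPi hs
  have hpos := hPi.natDegree_pos
  have hp : P - X ^ P.natDegree ∈ PL F P.natDegree := by
    rw [mem_PL]
    have h1 := degree_sub_lt_left (p := P) (q := X ^ P.natDegree)
      (by rw [degree_X_pow, degree_eq_natDegree hPm.ne_zero]) hPm.ne_zero
      (by rw [hPm.leadingCoeff, (monic_X_pow _).leadingCoeff])
    rwa [degree_eq_natDegree hPm.ne_zero] at h1
  have e : X ^ P.natDegree + (P - X ^ P.natDegree) = P := by ring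
  simp only [Set.mem_iUnion, Finset.mem_product, Finset.mem_filter, Finset.mem_Icc]
  refine ⟨(P.natDegree, d), ⟨⟨⟨by omega, by omega⟩, by omega⟩, hd1, hd2⟩, hf,
    ⟨P - X ^ P.natDegree, hp⟩, v, ?_, ?_⟩
  · change IsCoprime (X ^ P.natDegree + (P - X ^ P.natDegree)) _
    rw [e]
    exact QT_coprime hD hPm hPi hPT
  · change InI (X ^ P.natDegree + (P - X ^ P.natDegree)) _ f
    rw [e]
    exact hI

end Pool.HYP.Den
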