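import Pool.Agent.H94.HYP.DenC

/-!
# HYP, density of smooth polynomials, part D: the numbers for the small primes
-/

set_option autoImplicit false
set_option linter.style.haveILetI false

namespace Pool.HYP.Den

open Polynomial Pool.HYP

variable {F : Type} [Field F]

theorem card_ge_three [Finite F] (h2 : (2 : F) ≠ 0) : 3 ≤ Nat.card F := by
  classical
  haveI := Fintype.ofFinite F
  rw [Nat.card_eq_fintype_card]
  have h1 : ({0, 1, -1} : Finset F).card = 3 := by
    have h3 : (1 : F) ≠ -1 := by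
      intro h
      apply h2
      linear_combination h
    rw [Finset.card_insert_of_notMem, Finset.card_insert_of_notMem, Finset.card_singleton]
    · simpa using h3
    · simp
  rw [← h1]
  exact Finset.card_le_univ _

theorem geom_le {z : ℝ} (hz0 : 0 ≤ z) (hz1 : z < 1) (n : ℕ) :
    ∑ i ∈ Finset.range n, z ^ i ≤ 1 / (1 - z) := by
  rw [le_div_iff₀ (by linarith), geom_sum_mul_neg]
  have := pow_nonneg hz0 n
  linarith

/-- the numerical sum. -/
theorem num_sum {y : ℝ} (hy0 : 0 < y) (hy : y ≤ 1 / 3) (M : Finset ℕ) (h : ℕ)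
    (hM : M ⊆ Finset.Icc 1 h) (g : ℕ) :
    ∑ m ∈ M, ∑ d ∈ Finset.Icc 1 g, y ^ (2 * m * d - m) ≤ 9 / 16 := by
  have h1 : ∀ m ∈ Finset.Icc 1 h, ∑ d ∈ Finset.Icc 1 g, y ^ (2 * m * d - m) ≤ 9 / 8 * y ^ m := by
    intro m hm
    rw [Finset.mem_Icc] at hm
    have e1 : ∑ d ∈ Finset.Icc 1 g, y ^ (2 * m * d - m) =
        ∑ e ∈ Finset.range g, y ^ m * (y ^ (2 * m)) ^ e := by
      rw [Finset.range_eq_Ico, Finset.sum_Ico_eq_sum_range, ← Finset.Ico_add_one_right_eq_Icc,
        Finset.sum_Ico_eq_sum_range]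
      simp only [Nat.sub_zero, Nat.add_sub_cancel]
      refine Finset.sum_congr rfl fun e _ => ?_
      rw [← pow_mul, ← pow_add]
      congr 1
      have : 2 * m * (1 + e) = m + m + 2 * m * e := by ring
      rw [this]
      have : 2 * m * (0 + e) = 2 * m * e := by ring
      rw [this]
      omega
    rw [e1, ← Finset.mul_sum]
    have hz : y ^ (2 * m) ≤ 1 / 9 := by
      calc y ^ (2 * m) ≤ y ^ 2 := pow_le_pow_of_le_one hy0.le (by linarith) (by omega)
        _ ≤ (1 / 3) ^ 2 := pow_le_pow_left₀ hy0.le hy 2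
        _ = 1 / 9 := by norm_num
    have h2 := geom_le (z := y ^ (2 * m)) (by positivity) (by linarith) g
    have h3 : 1 / (1 - y ^ (2 * m)) ≤ 9 / 8 := by
      rw [div_le_iff₀ (by linarith)]
      linarith
    have h4 : 0 ≤ y ^ m := by positivity
    nlinarith
  calc ∑ m ∈ M, ∑ d ∈ Finset.Icc 1 g, y ^ (2 * m * d - m)
      ≤ ∑ m ∈ Finset.Icc 1 h, ∑ d ∈ Finset.Icc 1 g, y ^ (2 * m * d - m) := by
        apply Finset.sum_le_sum_of_subset_of_nonneg hM
        intro i _ _
        exact Finset.sum_nonneg fun d _ => by positivity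
    _ ≤ ∑ m ∈ Finset.Icc 1 h, 9 / 8 * y ^ m := Finset.sum_le_sum h1
    _ = 9 / 8 * ∑ m ∈ Finset.Icc 1 h, y ^ m := by rw [Finset.mul_sum]
    _ ≤ 9 / 8 * (1 / 2) := by
        apply mul_le_mul_of_nonneg_left _ (by norm_num)
        have e1 : ∑ m ∈ Finset.Icc 1 h, y ^ m = y * ∑ e ∈ Finset.range h, y ^ e := by
          rw [Finset.mul_sum, Finset.range_eq_Ico, Finset.sum_Ico_eq_sum_range,
            ← Finset.Ico_add_one_right_eq_Icc, Finset.sum_Ico_eq_sum_range]
          simp only [Nat.sub_zero, Nat.add_sub_cancel]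
          refine Finset.sum_congr rfl fun e _ => ?_
          rw [zero_add, pow_add, pow_one]
        rw [e1]
        have h2 := geom_le (z := y) hy0.le (by linarith) h
        have h3 : 1 / (1 - y) ≤ 3 / 2 := by
          rw [div_le_iff₀ (by linarith)]
          linarith
        nlinarith
    _ = 9 / 16 := by norm_num

theorem SmallS_card [Finite F] (h2 : (2 : F) ≠ 0) {g h : ℕ} {D : Dat F} (hD : D.Ok g) :
    ((SmallS g D h).ncard : ℝ) ≤ 9 / 16 * (Fam g D h).ncard := by
  classical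
  have hq := card_ge_three h2
  set q := Nat.card F with hqdef
  have hfin := fam_finite (F := F) g D h
  set N := (Fam g D h).ncard
  let IX := ((Finset.Icc 1 h).filter fun m => 2 * m + D.deg ≤ h) ×ˢ Finset.Icc 1 g
  have hAfin : ∀ m d, (AA g D h (QT D) m d).Finite := fun m d => hfin.subset (Set.sep_subset _ _)
  have h1 : (SmallS g D h).ncard ≤ ∑ x ∈ IX, (AA g D h (QT D) x.1 x.2).ncard := by
    have hU : (⋃ x ∈ IX, AA g D h (QT D) x.1 x.2) =
        ((IX.biUnion fun x => (hAfin x.1 x.2).toFinset : Finset _) : Set F[X][X]) := by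
      ext f
      simp
    have h3 : (SmallS g D h).ncard ≤ (⋃ x ∈ IX, AA g D h (QT D) x.1 x.2).ncard := by
      refine Set.ncard_le_ncard (SmallS_subset hD) ?_
      change (⋃ x ∈ IX, AA g D h (QT D) x.1 x.2).Finite
      rw [hU]
      exact Finset.finite_toSet _
    refine h3.trans ?_
    rw [hU, Set.ncard_coe_finset]
    refine Finset.card_biUnion_le.trans ?_
    refine Finset.sum_le_sum fun x _ => ?_
    rw [Set.ncard_eq_toFinset_card _ (hAfin x.1 x.2)]
  have hq0 : (0 : ℝ) < q := by exact_mod_cast (by omega : 0 < q)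
  have h3 : ∀ x ∈ IX, ((AA g D h (QT D) x.1 x.2).ncard : ℝ) ≤
      ((q : ℝ)⁻¹) ^ (2 * x.1 * x.2 - x.1) * N := by
    intro x hx
    simp only [IX, Finset.mem_product, Finset.mem_filter, Finset.mem_Icc] at hx
    have h4 := AA_card (F := F) (g := g) (h := h) (QT_dvd D) (m := x.1) (d := x.2) hx.1.1.1
      (by rw [QT_natDegree hD]; exact hx.1.2) hx.2.2
    have h5 : ((AA g D h (QT D) x.1 x.2).ncard : ℝ) * (q : ℝ) ^ (3 * x.1 * x.2) ≤
        (q : ℝ) ^ (x.1 + x.1 * x.2) * N := by exact_mod_cast h4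
    have hle : x.1 ≤ 2 * x.1 * x.2 := by
      have : 1 * x.1 ≤ (2 * x.2) * x.1 := Nat.mul_le_mul_right _ (by omega)
      calc x.1 = 1 * x.1 := (one_mul _).symm
        _ ≤ (2 * x.2) * x.1 := this
        _ = 2 * x.1 * x.2 := by ring
    have e : (q : ℝ) ^ (x.1 + x.1 * x.2) =
        (q : ℝ) ^ (3 * x.1 * x.2) * ((q : ℝ)⁻¹) ^ (2 * x.1 * x.2 - x.1) := by
      rw [inv_pow, eq_mul_inv_iff_mul_eq₀ (by positivity), ← pow_add]
      congr 1
      have e3 : 3 * x.1 * x.2 = 2 * x.1 * x.2 + x.1 * x.2 := by ring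
      rw [e3]
      omega
    rw [e] at h5
    have h6 : (0 : ℝ) < (q : ℝ) ^ (3 * x.1 * x.2) := by positivity
    refine le_of_mul_le_mul_left (a := (q : ℝ) ^ (3 * x.1 * x.2)) ?_ h6
    linarith
  calc ((SmallS g D h).ncard : ℝ) ≤ ∑ x ∈ IX, ((AA g D h (QT D) x.1 x.2).ncard : ℝ) := by
        exact_mod_cast h1
    _ ≤ ∑ x ∈ IX, ((q : ℝ)⁻¹) ^ (2 * x.1 * x.2 - x.1) * N := Finset.sum_le_sum h3
    _ = (∑ m ∈ (Finset.Icc 1 h).filter fun m => 2 * m + D.deg ≤ h, ∑ d ∈ Finset.Icc 1 g,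
          ((q : ℝ)⁻¹) ^ (2 * m * d - m)) * N := by
        rw [← Finset.sum_mul, Finset.sum_product]
    _ ≤ 9 / 16 * N := by
        apply mul_le_mul_of_nonneg_right _ (Nat.cast_nonneg _)
        apply num_sum (by positivity) _ _ h (Finset.filter_subset _ _) g
        rw [inv_eq_one_div]
        apply one_div_le_one_div_of_le (by norm_num)
        exact_mod_cast hq

end Pool.HYP.Den
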